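import Pool.Agent.K3h54.QR.Main

/-!
# The radius of convergence of the `q`-deformed real numbers

For every real `x` the `q`-deformed real number `[x]_q` (defined by the `q`-deformed negative
continued fraction expansion for `x ≥ 1`, and by `[x - 1]_q = q⁻¹ ([x]_q - 1)` otherwise) has radius
of convergence at least `(3 - √5)/2`.

Proof.  Let `ρ = (√5 - 1)/2`, so that `ρ + ρ² = 1`, and let `‖F‖ = ∑ |a_n| ρ^(2n)`, a
submultiplicative norm with `‖q‖ = ρ²`.  The map `z ↦ 1 + q z` sends the ball `‖z‖ ≤ 1/ρ` into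
`‖w - 1‖ ≤ ρ`, and `w ↦ 1 - 1/w` sends `‖w - 1‖ ≤ ρ` into the ball `‖v‖ ≤ ρ/(1 - ρ) = 1/ρ`.
Since `[c]_q - q^(c-1)/w` arises from `1 - 1/w` by applying `z ↦ 1 + q z` exactly `c - 1 ≥ 1` times,
all the truncations satisfy `‖[[c_1, ..., c_N]]_q - 1‖ ≤ ρ`, and so does their limit.
-/

set_option autoImplicit false

namespace Pool.Agent.Results.MP_b13893_an.RadiusBound

open Pool.Agent.K3h54.QR

/-- **Theorem.** For every real `x` there is exactly one Laurent series `F = [x]_q`, and its radius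
of convergence is at least `(3 - √5)/2`. -/
theorem result (x : ℝ) : ∃ F : LaurentSeries ℂ, IsQReal x F ∧ (∀ G, IsQReal x G → G = F) ∧
    ENNReal.ofReal ((3 - √5) / 2) ≤ radius F :=
  main x

end Pool.Agent.Results.MP_b13893_an.RadiusBound
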